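import Pool.Agent.KT3.StmtsA

/-!
# KT3 squad (MP_e54c4c_gt), row UNI: uniform smallness
-/

set_option autoImplicit false

open Matrix Filter Topology

namespace Pool.Agent.KT3.H23

open Pool.Agent.PFS Pool.Agent.PFJ Pool.Agent.NBT

/-- the claim for one index, normalised to `r = 1` -/
theorem one_index (hFay : FayStmt) (hPhe : PheStmt) (hPhu : PhuStmt) (hPhc : PhcStmt)
    (n : ℕ) (C : Set (V n)) (Γ : Subgroup (GL (Fin n) ℝ)) (K : ℕ) (h : HK C Γ K)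
    (τ : ℝ) (hτ : 0 < τ) (i : Fin K) :
    ∃ κ : ℝ, 0 < κ ∧ ∀ w : Fin K → V n, IsPES C Γ w →
      ∀ (φ : V n →ₗ[ℝ] ℝ), Ph C w i φ → ∀ e : V n, φ e = 0 →
      (∑ j, w j) - e ∈ closure C → (∑ j, w j) + e ∈ closure C →
      (κ • fS w {i}ᶜ + τ • ∑ j, w j) - e ∈ closure C ∧
      (κ • fS w {i}ᶜ + τ • ∑ j, w j) + e ∈ closure C := by
  classical
  have hcc : CC C Γ := h.toCC
  have hP : PCone C := hcc.toPCone
  by_contra hcon
  push Not at hcon
  have hm1 : ∀ m : ℕ, (0 : ℝ) < (m : ℝ) + 1 := fun m => by positivity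
  choose w hw φ hφ e hφe he1 he2 hbad using fun m : ℕ => hcon ((m : ℝ) + 1) (hm1 m)
  have hK2 : 2 ≤ K := le_trans (by norm_num) h.three
  obtain ⟨θ, g, s, p, hθ, hg, hs, hp, hlim⟩ := (hFay n C Γ K hcc hK2).cpt w hw
  -- the moved simplices
  have hy : ∀ m, IsPES C Γ (fun j => s m • act (g m) (w (θ m) j)) := fun m =>
    (Pool.Agent.PFS.H60.elm n C Γ hcc (Fin K) (w (θ m)) (hw (θ m))).2.1 (g m) (hg m) (s m) (hs m)
  have hsum : ∀ m, ∑ j, s m • act (g m) (w (θ m) j) = s m • act (g m) (∑ j, w (θ m) j) := by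
    intro m
    rw [CC.act_sum, Finset.smul_sum]
  obtain ⟨ψ, W, hψ, hW, hWp, hWI⟩ := H37.lpsF n C Γ hcc (Fin K) (by simpa using hK2)
    (fun m j => s m • act (g m) (w (θ m) j)) p hy hp (by simpa only [hsum] using hlim)
  -- the moved vectors
  obtain ⟨B, hB, hBn⟩ := hP.normal
  let F : ℕ → V n := fun m => ∑ j, s (ψ m) • act (g (ψ m)) (w (θ (ψ m)) j)
  let E : ℕ → V n := fun m => s (ψ m) • act (g (ψ m)) (e (θ (ψ m)))
  have hF : Tendsto F atTop (𝓝 p) := by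
    have h1 : Tendsto F atTop (𝓝 (∑ j, W j)) := tendsto_finsetSum _ fun j _ => hW j
    rwa [hWp] at h1
  have hFm : ∀ m, F m = s (ψ m) • act (g (ψ m)) (∑ j, w (θ (ψ m)) j) := fun m => hsum (ψ m)
  have hFE1 : ∀ m, F m - E m ∈ closure C := by
    intro m
    rw [hFm]
    have h1 := (hcc.sact_cl_iff (hg (ψ m)) (hs (ψ m))).2 (he1 (θ (ψ m)))
    rwa [CC.act_sub, smul_sub] at h1
  have hFE2 : ∀ m, F m + E m ∈ closure C := by
    intro m
    rw [hFm]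
    have h1 := (hcc.sact_cl_iff (hg (ψ m)) (hs (ψ m))).2 (he2 (θ (ψ m)))
    rwa [CC.act_add, smul_add] at h1
  obtain ⟨R, hR⟩ : ∃ R : ℝ, ∀ m, ‖F m‖ ≤ R := by
    obtain ⟨R, hR⟩ := (hF.norm.bddAbove_range)
    exact ⟨R, fun m => hR ⟨m, rfl⟩⟩
  have hEb : ∀ m, E m ∈ Metric.closedBall (0 : V n) ((2 * B + 1) * R) := by
    intro m
    rw [mem_closedBall_zero_iff]
    have h1 : ‖F m + E m‖ ≤ B * ‖(2 : ℝ) • F m‖ := by
      refine hBn _ _ (hFE2 m) ?_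
      have h2 : (2 : ℝ) • F m - (F m + E m) = F m - E m := by rw [two_smul]; abel
      rw [h2]; exact hFE1 m
    have h2 : ‖(2 : ℝ) • F m‖ = 2 * ‖F m‖ := by
      rw [norm_smul]; norm_num
    rw [h2] at h1
    have h3 : ‖E m‖ ≤ ‖F m + E m‖ + ‖F m‖ := by
      have h4 : E m = (F m + E m) - F m := by abel
      calc ‖E m‖ = ‖(F m + E m) - F m‖ := by rw [← h4]
        _ ≤ _ := norm_sub_le _ _
    have h5 := hR m
    have h6 := norm_nonneg (F m)
    nlinarith [mul_le_mul_of_nonneg_left h5 hB.le]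
  obtain ⟨E0, -, χ, hχ, hE0⟩ :=
    (isCompact_closedBall (0 : V n) ((2 * B + 1) * R)).tendsto_subseq hEb
  -- the support functionals
  obtain ⟨Φ, hΦ⟩ := hPhe n C Γ K h W hWI i
  choose Φ' hΦ' using fun m => hPhe n C Γ K h _ (hy (ψ m)) i
  have hΦE : ∀ m, Φ' m (E m) = 0 := by
    intro m
    have h1 := (hPhu n C Γ K h (w (θ (ψ m))) (hw _) i (φ (θ (ψ m))) (hφ _)).2.2.2.1
      (g (ψ m)) (hg _) (s (ψ m)) (hs _) (Φ' m) (hΦ' m) (e (θ (ψ m)))
    rw [hφe] at h1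
    exact h1
  have hΦ0 : Φ E0 = 0 := by
    have h1 := hPhc n C Γ K h (fun m j => s (ψ (χ m)) • act (g (ψ (χ m))) (w (θ (ψ (χ m))) j)) W
      (fun m => hy (ψ (χ m))) hWI (fun j => (hW j).comp hχ.tendsto_atTop) i
      (fun m => Φ' (χ m)) Φ (fun m => E (χ m)) E0 (fun m => hΦ' (χ m)) hΦ hE0
    simp only [hΦE] at h1
    exact (tendsto_nhds_unique h1 tendsto_const_nhds)
  have hsml := ((hPhu n C Γ K h W hWI i Φ hΦ).2.1 E0).1 hΦ0
  obtain ⟨κ, hκ, hk1, hk2⟩ := hsml p hp (τ / 2) (by positivity)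
  have hk1' : κ • fS W {i}ᶜ + τ • p - E0 ∈ C := by
    have h1 : κ • fS W {i}ᶜ + τ • p - E0
        = (τ / 2) • p + (κ • fS W {i}ᶜ + (τ / 2) • p - E0) := by
      have h2 : τ • p = (τ / 2) • p + (τ / 2) • p := by rw [← add_smul]; norm_num
      rw [h2]; abel
    rw [h1]
    exact hP.add_cl (hP.smul p hp _ (by positivity)) hk1
  have hk2' : κ • fS W {i}ᶜ + τ • p + E0 ∈ C := by
    have h1 : κ • fS W {i}ᶜ + τ • p + E0
        = (τ / 2) • p + (κ • fS W {i}ᶜ + (τ / 2) • p + E0) := by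
      have h2 : τ • p = (τ / 2) • p + (τ / 2) • p := by rw [← add_smul]; norm_num
      rw [h2]; abel
    rw [h1]
    exact hP.add_cl (hP.smul p hp _ (by positivity)) hk2
  -- the limits
  let Y : ℕ → V n := fun m => fS (fun j => s (ψ (χ m)) • act (g (ψ (χ m))) (w (θ (ψ (χ m))) j)) {i}ᶜ
  have hY : Tendsto Y atTop (𝓝 (fS W {i}ᶜ)) :=
    tendsto_finsetSum _ fun j _ => (hW j).comp hχ.tendsto_atTop
  have hFχ : Tendsto (fun m => F (χ m)) atTop (𝓝 p) := hF.comp hχ.tendsto_atTop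
  have ht1 : Tendsto (fun m => κ • Y m + τ • F (χ m) - E (χ m)) atTop
      (𝓝 (κ • fS W {i}ᶜ + τ • p - E0)) :=
    ((hY.const_smul κ).add (hFχ.const_smul τ)).sub hE0
  have ht2 : Tendsto (fun m => κ • Y m + τ • F (χ m) + E (χ m)) atTop
      (𝓝 (κ • fS W {i}ᶜ + τ • p + E0)) :=
    ((hY.const_smul κ).add (hFχ.const_smul τ)).add hE0
  have hev1 := ht1.eventually (hP.isOpen.mem_nhds hk1')
  have hev2 := ht2.eventually (hP.isOpen.mem_nhds hk2')
  have hidx : Tendsto (fun m => ((θ (ψ (χ m)) : ℕ) : ℝ)) atTop atTop :=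
    tendsto_natCast_atTop_atTop.comp ((hθ.comp (hψ.comp hχ)).tendsto_atTop)
  obtain ⟨m, ⟨hm1', hm2'⟩, hm3⟩ := ((hev1.and hev2).and (hidx.eventually_ge_atTop κ)).exists
  have hYm : Y m = s (ψ (χ m)) • act (g (ψ (χ m))) (fS (w (θ (ψ (χ m)))) {i}ᶜ) := by
    change ∑ j ∈ {i}ᶜ, s (ψ (χ m)) • act (g (ψ (χ m))) (w (θ (ψ (χ m))) j) = _
    unfold fS
    rw [CC.act_sum, Finset.smul_sum]
  set N := θ (ψ (χ m)) with hN
  set g0 := g (ψ (χ m)) with hg0
  set s0 := s (ψ (χ m)) with hs0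
  have hgm : g0 ∈ Γ := hg _
  have hsm : 0 < s0 := hs _
  have hfc : fS (w N) {i}ᶜ ∈ closure C := fS_cl hP (fun j => (hw N).1.cl j) _
  have key1 : κ • fS (w N) {i}ᶜ + τ • ∑ j, w N j - e N ∈ C := by
    rw [← hcc.sact_mem_iff hgm hsm]
    have h1 : s0 • act g0 (κ • fS (w N) {i}ᶜ + τ • ∑ j, w N j - e N)
        = κ • Y m + τ • F (χ m) - E (χ m) := by
      rw [hYm, hFm, CC.act_sub, CC.act_add, CC.act_smul, CC.act_smul, smul_sub, smul_add,
        smul_comm s0 κ, smul_comm s0 τ]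
    rw [h1]; exact hm1'
  have key2 : κ • fS (w N) {i}ᶜ + τ • ∑ j, w N j + e N ∈ C := by
    rw [← hcc.sact_mem_iff hgm hsm]
    have h1 : s0 • act g0 (κ • fS (w N) {i}ᶜ + τ • ∑ j, w N j + e N)
        = κ • Y m + τ • F (χ m) + E (χ m) := by
      rw [hYm, hFm, CC.act_add, CC.act_add, CC.act_smul, CC.act_smul, smul_add, smul_add,
        smul_comm s0 κ, smul_comm s0 τ]
    rw [h1]; exact hm2'
  have hge : 0 ≤ (N : ℝ) + 1 - κ := by linarith
  have fin1 : ((N : ℝ) + 1) • fS (w N) {i}ᶜ + τ • ∑ j, w N j - e N ∈ closure C := by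
    have h1 : ((N : ℝ) + 1) • fS (w N) {i}ᶜ + τ • ∑ j, w N j - e N
        = (κ • fS (w N) {i}ᶜ + τ • ∑ j, w N j - e N) + ((N : ℝ) + 1 - κ) • fS (w N) {i}ᶜ := by
      rw [sub_smul]; abel
    rw [h1]
    exact hP.cl_add (subset_closure key1) (hP.cl_smul hfc hge)
  have fin2 : ((N : ℝ) + 1) • fS (w N) {i}ᶜ + τ • ∑ j, w N j + e N ∈ closure C := by
    have h1 : ((N : ℝ) + 1) • fS (w N) {i}ᶜ + τ • ∑ j, w N j + e N
        = (κ • fS (w N) {i}ᶜ + τ • ∑ j, w N j + e N) + ((N : ℝ) + 1 - κ) • fS (w N) {i}ᶜ := by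
      rw [sub_smul]; abel
    rw [h1]
    exact hP.cl_add (subset_closure key2) (hP.cl_smul hfc hge)
  exact hbad N fin1 fin2

/-- **Row UNI** -/
theorem uni (hFay : FayStmt) (hPhe : PheStmt) (hPhu : PhuStmt) (hPhc : PhcStmt) : UniStmt := by
  classical
  intro n C Γ K h τ hτ
  have hP : PCone C := h.toCC.toPCone
  choose κ hκ hk using fun i => one_index hFay hPhe hPhu hPhc n C Γ K h τ hτ i
  have hle : ∀ i, κ i ≤ 1 + ∑ j, κ j := by
    intro i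
    have h1 := Finset.single_le_sum (f := κ) (fun j _ => (hκ j).le) (Finset.mem_univ i)
    linarith
  have hpos : 0 < 1 + ∑ j, κ j := by
    have h1 : 0 ≤ ∑ j, κ j := Finset.sum_nonneg fun j _ => (hκ j).le
    linarith
  refine ⟨1 + ∑ j, κ j, hpos, ?_⟩
  intro w hw i φ hφ e r hφe hr h1 h2
  rcases hr.eq_or_lt with hr0 | hr0
  · rw [← hr0, zero_smul, zero_sub] at h1
    rw [← hr0, zero_smul, zero_add] at h2
    have he : e = 0 := hP.salient e h2 h1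
    rw [← hr0, he, zero_smul, sub_zero, add_zero]
    exact ⟨hP.zero_cl, hP.zero_cl⟩
  · have hfc : fS w {i}ᶜ ∈ closure C := fS_cl hP (fun j => hw.1.cl j) _
    have h3 : (∑ j, w j) - r⁻¹ • e ∈ closure C := by
      have h4 := hP.cl_smul h1 (inv_pos.mpr hr0).le
      rwa [smul_sub, smul_smul, inv_mul_cancel₀ hr0.ne', one_smul] at h4
    have h5 : (∑ j, w j) + r⁻¹ • e ∈ closure C := by
      have h4 := hP.cl_smul h2 (inv_pos.mpr hr0).le
      rwa [smul_add, smul_smul, inv_mul_cancel₀ hr0.ne', one_smul] at h4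
    obtain ⟨h6, h7⟩ := hk i w hw φ hφ (r⁻¹ • e) (by rw [map_smul, hφe, smul_zero]) h3 h5
    have hre : r • (r⁻¹ • e) = e := by rw [smul_smul, mul_inv_cancel₀ hr0.ne', one_smul]
    have hd : 0 ≤ (1 + ∑ j, κ j) - κ i := by linarith [hle i]
    constructor
    · have h8 : r • ((1 + ∑ j, κ j) • fS w {i}ᶜ + τ • ∑ j, w j) - e
          = r • ((κ i • fS w {i}ᶜ + τ • ∑ j, w j) - r⁻¹ • e)
            + r • (((1 + ∑ j, κ j) - κ i) • fS w {i}ᶜ) := by
        rw [smul_sub, hre, sub_smul, smul_sub, smul_add, smul_add]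
        abel
      rw [h8]
      exact hP.cl_add (hP.cl_smul h6 hr) (hP.cl_smul (hP.cl_smul hfc hd) hr)
    · have h8 : r • ((1 + ∑ j, κ j) • fS w {i}ᶜ + τ • ∑ j, w j) + e
          = r • ((κ i • fS w {i}ᶜ + τ • ∑ j, w j) + r⁻¹ • e)
            + r • (((1 + ∑ j, κ j) - κ i) • fS w {i}ᶜ) := by
        rw [smul_add r _ (r⁻¹ • e), hre, sub_smul, smul_sub, smul_add, smul_add]
        abel
      rw [h8]
      exact hP.cl_add (hP.cl_smul h7 hr) (hP.cl_smul (hP.cl_smul hfc hd) hr)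

end Pool.Agent.KT3.H23
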