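import Pool.Agent.KT3.StmtsD

/-!
# KT3 squad (MP_e54c4c_gt), row ZPL: the zoom limit at a generic point of the leaf
-/

set_option autoImplicit false

open Matrix Filter Topology

namespace Pool.Agent.KT3.H23

open Pool.Agent.PFS Pool.Agent.PFJ Pool.Agent.NBT

/-- the scaled group element as a linear map -/
noncomputable def GG {n : ℕ} (g : GL (Fin n) ℝ) (s : ℝ) : V n →ₗ[ℝ] V n :=
  s • Matrix.mulVecLin (g : Matrix (Fin n) (Fin n) ℝ)

theorem GG_apply {n : ℕ} (g : GL (Fin n) ℝ) (s : ℝ) (x : V n) : GG g s x = s • act g x := rfl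

theorem GG_C {n : ℕ} {C : Set (V n)} {Γ : Subgroup (GL (Fin n) ℝ)} (h : CC C Γ)
    {g : GL (Fin n) ℝ} (hg : g ∈ Γ) {s : ℝ} (hs : 0 < s) (x : V n) : GG g s x ∈ C ↔ x ∈ C := by
  rw [GG_apply]; exact h.sact_mem_iff hg hs

theorem GG_cl {n : ℕ} {C : Set (V n)} {Γ : Subgroup (GL (Fin n) ℝ)} (h : CC C Γ)
    {g : GL (Fin n) ℝ} (hg : g ∈ Γ) {s : ℝ} (hs : 0 < s) (x : V n) :
    GG g s x ∈ closure C ↔ x ∈ closure C := by
  rw [GG_apply]; exact h.sact_cl_iff hg hs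

theorem GG_mem {n : ℕ} (g : GL (Fin n) ℝ) (s : ℝ) {L : Submodule ℝ (V n)} {x : V n}
    (hx : x ∈ L) : GG g s x ∈ img g L := by
  rw [GG_apply]; exact Submodule.smul_mem _ _ (mem_img.2 ⟨x, hx, rfl⟩)

theorem GG_ex {n : ℕ} (g : GL (Fin n) ℝ) {s : ℝ} (hs : 0 < s) {L : Submodule ℝ (V n)} {a : V n}
    (ha : a ∈ img g L) : ∃ x ∈ L, GG g s x = a := by
  obtain ⟨b, hb, hba⟩ := mem_img.1 ha
  refine ⟨s⁻¹ • b, Submodule.smul_mem _ _ hb, ?_⟩
  rw [GG_apply, CC.act_smul, smul_smul, mul_inv_cancel₀ hs.ne', one_smul, hba]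

theorem compl02 : (I02 : Finset (Fin 3))ᶜ = {1} := by decide

theorem compl01 : (I01 : Finset (Fin 3))ᶜ = {2} := by decide

/-- the box at a leaf point of the limit -/
theorem core2 {n : ℕ} {C : Set (V n)} {Γ : Subgroup (GL (Fin n) ℝ)} (hcc : CC C Γ)
    (w W : Fin 3 → V n) (hw1 : w 1 ∈ closure C) (hw2 : w 2 ∈ closure C) (δ : ℕ)
    (θ : ℕ → ℝ) (g : ℕ → GL (Fin n) ℝ) (s : ℕ → ℝ) (hg : ∀ m, g m ∈ Γ) (hs : ∀ m, 0 < s m)
    (zh : ℕ → V n) (hzh : ∀ m, zh m ∈ closure C) (cm : ℕ → ℝ) (c : ℝ) (hc : 0 < c)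
    (hcm : Tendsto cm atTop (𝓝 c)) (y : V n)
    (hy : Tendsto (fun m => GG (g m) (s m) (cm m • zh m)) atTop (𝓝 y))
    (h1 : Tendsto (fun m => GG (g m) (s m) (Real.exp (-θ m) • w 1)) atTop (𝓝 (W 1)))
    (h2 : Tendsto (fun m => GG (g m) (s m) (w 2)) atTop (𝓝 (W 2)))
    (hsum : y + W 1 + W 2 ∈ C)
    (hZ : ∀ j : ℕ, ∀ᶠ m in atTop, ∃ T : ℕ, Zp C w δ (1 / ((j : ℝ) + 1)) ((j : ℝ) + 2) T (zh m) ∧
      (T : ℝ) + 1 ≤ θ m) :
    ∃ L : Submodule ℝ (V n), IB C (up W y) I02 L ∧ δ ≤ Module.finrank ℝ L := by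
  have hP : PCone C := hcc.toPCone
  obtain ⟨ρ, hρ, hρP⟩ := extraction_forall_of_eventually hZ
  choose T hZp hT using hρP
  unfold Zp at hZp
  choose L hLd hLz hL2 hLbox using hZp
  obtain ⟨χ, L', hχ, hlim, hdim⟩ := Pool.Agent.PFJ.H69.lsc n (fun j => img (g (ρ j)) (L j))
  have hσ : Tendsto (fun j => ρ (χ j)) atTop atTop := (hρ.comp hχ).tendsto_atTop
  have hyσ := hy.comp hσ
  have h1σ := h1.comp hσ
  have h2σ := h2.comp hσ
  have hcσ := hcm.comp hσ
  simp only [Function.comp_def] at hyσ h1σ h2σ hcσ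
  have hcpos : ∀ᶠ j in atTop, 0 < cm (ρ (χ j)) ∧ cm (ρ (χ j)) < c + 1 :=
    (hcσ.eventually (lt_mem_nhds hc)).and (hcσ.eventually (gt_mem_nhds (by linarith)))
  have hycl : y ∈ closure C := by
    refine isClosed_closure.mem_of_tendsto hyσ ?_
    filter_upwards [hcpos] with j hj
    exact (GG_cl hcc (hg _) (hs _) _).2 (hP.cl_smul (hzh _) hj.1.le)
  have hW2cl : W 2 ∈ closure C :=
    isClosed_closure.mem_of_tendsto h2σ (Eventually.of_forall fun j =>
      (GG_cl hcc (hg _) (hs _) _).2 hw2)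
  refine ⟨L', ⟨?_, ?_⟩, ?_⟩
  · intro i hi
    have hi' : i = 0 ∨ i = 2 := by simpa [I02] using hi
    rcases hi' with rfl | rfl
    · have h3 : up W y 0 = y := Function.update_self _ _ _
      rw [h3]
      refine hlim.2 id _ y strictMono_id (fun j => ?_) hyσ
      exact GG_mem _ _ (Submodule.smul_mem _ _ (hLz (χ j)))
    · have h3 : up W y 2 = W 2 := Function.update_of_ne (by decide) _ _
      rw [h3]
      refine hlim.2 id _ (W 2) strictMono_id (fun j => ?_) h2σ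
      exact GG_mem _ _ (hL2 (χ j))
  · intro u hu hub
    have h3 : up W y 1 = W 1 := Function.update_of_ne (by decide) _ _
    rw [compl02, fS_single, h3] at hub
    obtain ⟨a, ha, hau⟩ := hlim.1 u hu
    choose b hb hba using fun j => GG_ex (g (ρ (χ j))) (hs (ρ (χ j))) (ha j)
    have hclaim : ∀ ε : ℝ, 0 < ε → ε < 1 → u + ε • (y + W 2) ∈ closure C := by
      intro ε hε hε1
      have hA : u + W 1 + ε • (y + W 1 + W 2) ∈ C :=
        hP.cl_add' hub (hP.smul _ hsum _ hε)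
      obtain ⟨M, hM, hMC⟩ := hP.absorb hsum u
      have ht1 : Tendsto (fun j => a j + GG (g (ρ (χ j))) (s (ρ (χ j)))
            (Real.exp (-θ (ρ (χ j))) • w 1) + ε • (GG (g (ρ (χ j))) (s (ρ (χ j)))
            (cm (ρ (χ j)) • zh (ρ (χ j))) + GG (g (ρ (χ j))) (s (ρ (χ j)))
            (Real.exp (-θ (ρ (χ j))) • w 1) + GG (g (ρ (χ j))) (s (ρ (χ j))) (w 2))) atTop
          (𝓝 (u + W 1 + ε • (y + W 1 + W 2))) :=
        (hau.add h1σ).add (((hyσ.add h1σ).add h2σ).const_smul ε)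
      have ht2 : Tendsto (fun j => M • (GG (g (ρ (χ j))) (s (ρ (χ j)))
            (cm (ρ (χ j)) • zh (ρ (χ j))) + GG (g (ρ (χ j))) (s (ρ (χ j)))
            (Real.exp (-θ (ρ (χ j))) • w 1) + GG (g (ρ (χ j))) (s (ρ (χ j))) (w 2)) - a j) atTop
          (𝓝 (M • (y + W 1 + W 2) - u)) :=
        (((hyσ.add h1σ).add h2σ).const_smul M).sub hau
      have hj0 : Tendsto (fun j => ((χ j : ℕ) : ℝ)) atTop atTop :=
        tendsto_natCast_atTop_atTop.comp hχ.tendsto_atTop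
      -- the limit
      have hinv : Tendsto (fun j => 1 / (((χ j : ℕ) : ℝ) + 1)) atTop (𝓝 0) :=
        tendsto_one_div_add_atTop_nhds_zero_nat.comp hχ.tendsto_atTop
      have hcinv : Tendsto (fun j => (cm (ρ (χ j)))⁻¹) atTop (𝓝 c⁻¹) := hcσ.inv₀ hc.ne'
      have ht3 : Tendsto (fun j => a j + ε • (GG (g (ρ (χ j))) (s (ρ (χ j)))
            (cm (ρ (χ j)) • zh (ρ (χ j))) + GG (g (ρ (χ j))) (s (ρ (χ j))) (w 2))
            + (1 / (((χ j : ℕ) : ℝ) + 1)) • ((cm (ρ (χ j)))⁻¹ • GG (g (ρ (χ j))) (s (ρ (χ j)))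
            (cm (ρ (χ j)) • zh (ρ (χ j))) + GG (g (ρ (χ j))) (s (ρ (χ j))) (w 2))) atTop
          (𝓝 (u + ε • (y + W 2) + (0 : ℝ) • (c⁻¹ • y + W 2))) :=
        (hau.add ((hyσ.add h2σ).const_smul ε)).add (hinv.smul ((hcinv.smul hyσ).add h2σ))
      rw [zero_smul, add_zero] at ht3
      refine isClosed_closure.mem_of_tendsto ht3 ?_
      filter_upwards [ht1.eventually (hP.isOpen.mem_nhds hA),
        ht2.eventually (hP.isOpen.mem_nhds hMC), hcpos,
        hj0.eventually_ge_atTop ((M + 1) * (c + 1)), hj0.eventually_ge_atTop (M + 1)]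
        with j hj1 hj2 hj3 hj4 hj5
      set G := GG (g (ρ (χ j))) (s (ρ (χ j))) with hG
      set N := ρ (χ j) with hN
      have hGC : ∀ x, G x ∈ C ↔ x ∈ C := fun x => GG_C hcc (hg _) (hs _) x
      have hGcl : ∀ x, G x ∈ closure C ↔ x ∈ closure C := fun x => GG_cl hcc (hg _) (hs _) x
      have hb' : G (b j) = a j := hba j
      have hc0 : cm N ≠ 0 := hj3.1.ne'
      -- pull back
      have k1 : b j + Real.exp (-θ N) • w 1 + ε • (cm N • zh N + Real.exp (-θ N) • w 1 + w 2)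
          ∈ C := by
        rw [← hGC]
        simp only [map_add, map_smul] at hj1 ⊢
        rw [hb']
        exact hj1
      have k2 : M • (cm N • zh N + Real.exp (-θ N) • w 1 + w 2) - b j ∈ C := by
        rw [← hGC]
        simp only [map_add, map_smul, map_sub] at hj2 ⊢
        rw [hb']
        exact hj2
      have hexp : (1 + ε) * Real.exp (-θ N) ≤ Real.exp (-(T (χ j) : ℝ)) := by
        have h3 : Real.exp (-θ N) ≤ Real.exp (-(T (χ j) : ℝ)) * Real.exp (-1) := by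
          rw [← Real.exp_add]
          exact Real.exp_le_exp.2 (by have := hT (χ j); linarith)
        have h4 : Real.exp (-1) * 2 ≤ 1 := by
          have h5 : (2 : ℝ) ≤ Real.exp 1 := by
            have := Real.add_one_le_exp (1 : ℝ)
            linarith
          have h6 : Real.exp (-1) * Real.exp 1 = 1 := by
            rw [← Real.exp_add]; simp
          nlinarith [Real.exp_pos (-1)]
        have h5 := Real.exp_pos (-(T (χ j) : ℝ))
        have h6 := Real.exp_pos (-θ N)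
        nlinarith
      have hexp1 : Real.exp (-θ N) ≤ Real.exp (-(T (χ j) : ℝ)) :=
        Real.exp_le_exp.2 (by have := hT (χ j); linarith)
      have hE0 := Real.exp_pos (-θ N)
      have hZ' := hLbox (χ j) (b j + ε • (cm N • zh N + w 2))
        (Submodule.add_mem _ (hb j) (Submodule.smul_mem _ _ (Submodule.add_mem _
          (Submodule.smul_mem _ _ (hLz (χ j))) (hL2 (χ j))))) ?_ ?_
      · have k3 : G (b j + ε • (cm N • zh N + w 2) + (1 / (((χ j : ℕ) : ℝ) + 1)) • (zh N + w 2))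
            ∈ closure C := (hGcl _).2 hZ'
        have k4 : (cm N)⁻¹ • G (cm N • zh N) = G (zh N) := by
          rw [map_smul, smul_smul, inv_mul_cancel₀ hc0, one_smul]
        rw [k4]
        have k5 : a j + ε • (G (cm N • zh N) + G (w 2))
            + (1 / (((χ j : ℕ) : ℝ) + 1)) • (G (zh N) + G (w 2))
            = G (b j + ε • (cm N • zh N + w 2) + (1 / (((χ j : ℕ) : ℝ) + 1)) • (zh N + w 2)) := by
          simp only [map_add, map_smul]
          rw [hb']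
        rw [k5]
        exact k3
      · have k3 : b j + ε • (cm N • zh N + w 2) + Real.exp (-(T (χ j) : ℝ)) • w 1
            = (b j + Real.exp (-θ N) • w 1 + ε • (cm N • zh N + Real.exp (-θ N) • w 1 + w 2))
              + (Real.exp (-(T (χ j) : ℝ)) - (1 + ε) * Real.exp (-θ N)) • w 1 := by
          module
        rw [k3]
        exact hP.cl_add (subset_closure k1) (hP.cl_smul hw1 (by linarith))
      · have k3 : (((χ j : ℕ) : ℝ) + 2) • (zh N + w 2 + Real.exp (-(T (χ j) : ℝ)) • w 1)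
              - (b j + ε • (cm N • zh N + w 2))
            = (M • (cm N • zh N + Real.exp (-θ N) • w 1 + w 2) - b j)
              + ((((χ j : ℕ) : ℝ) + 2 - (M + ε) * cm N) • zh N
              + ((((χ j : ℕ) : ℝ) + 2 - (M + ε)) • w 2
              + ((((χ j : ℕ) : ℝ) + 2) * Real.exp (-(T (χ j) : ℝ)) - M * Real.exp (-θ N))
                • w 1)) := by
          module
        rw [k3]
        have q1 : 0 ≤ ((χ j : ℕ) : ℝ) + 2 - (M + ε) * cm N := by
          have h3 : (M + ε) * cm N ≤ (M + 1) * (c + 1) := by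
            have := hj3.1
            have := hj3.2
            exact mul_le_mul (by linarith) (by linarith) (by linarith) (by linarith)
          linarith
        have q2 : 0 ≤ ((χ j : ℕ) : ℝ) + 2 - (M + ε) := by linarith
        have q3 : 0 ≤ (((χ j : ℕ) : ℝ) + 2) * Real.exp (-(T (χ j) : ℝ))
            - M * Real.exp (-θ N) := by
          have h3 : M * Real.exp (-θ N) ≤ (((χ j : ℕ) : ℝ) + 2) * Real.exp (-(T (χ j) : ℝ)) :=
            mul_le_mul (by linarith) hexp1 hE0.le (by linarith)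
          linarith
        exact hP.cl_add (subset_closure k2) (hP.cl_add (hP.cl_smul (hzh N) q1)
          (hP.cl_add (hP.cl_smul hw2 q2) (hP.cl_smul hw1 q3)))
    refine cl_of_eps (f := y + W 2) fun ε hε => ?_
    rcases lt_or_ge ε 1 with h3 | h3
    · exact hclaim ε hε h3
    · have h4 := hclaim (1 / 2) (by norm_num) (by norm_num)
      have h5 : u + ε • (y + W 2) = (u + (1 / 2 : ℝ) • (y + W 2)) + (ε - 1 / 2) • (y + W 2) := by
        module
      rw [h5]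
      exact hP.cl_add h4 (hP.cl_smul (hP.cl_add hycl hW2cl) (by linarith))
  · have h3 := hdim 0
    rw [(Pool.Agent.PFJ.H32.img n).1, hLd] at h3
    exact h3.le

/-- the factors of the rescaling `at1` -/
noncomputable def rr (t : ℝ) : Fin 3 → ℝ := Function.update 1 1 (Real.exp t)

theorem rr_pos (t : ℝ) (i : Fin 3) : 0 < rr t i := by
  unfold rr
  by_cases hi : i = 1
  · subst hi; rw [Function.update_self]; exact Real.exp_pos t
  · rw [Function.update_of_ne hi]; exact one_pos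

theorem at1_eq {n : ℕ} (w : Fin 3 → V n) (t : ℝ) : at1 w t = fun i => rr t i • w i := by
  funext i
  unfold at1 rr
  by_cases hi : i = 1
  · subst hi; rw [Function.update_self, Function.update_self]
  · rw [Function.update_of_ne hi, Function.update_of_ne hi]
    simp

theorem at1_zero {n : ℕ} (w : Fin 3 → V n) (t : ℝ) : at1 w t 0 = w 0 :=
  Function.update_of_ne (by decide) _ _

theorem at1_one {n : ℕ} (w : Fin 3 → V n) (t : ℝ) : at1 w t 1 = Real.exp t • w 1 :=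
  Function.update_self _ _ _

theorem at1_two {n : ℕ} (w : Fin 3 → V n) (t : ℝ) : at1 w t 2 = w 2 :=
  Function.update_of_ne (by decide) _ _

/-- the case `x0 = w 0` -/
theorem core1 (hFay : FayStmt) (hWic : WicStmt) (hWii : WiiStmt) (hLfi : LfiStmt)
    (hLfm : LfmStmt) (hLfc : LfcStmt) (hPhe : PheStmt) (hPhu : PhuStmt) (hPhc : PhcStmt)
    (hLpt : LptStmt) (n : ℕ) (C : Set (V n)) (Γ : Subgroup (GL (Fin n) ℝ)) (d : ℕ)
    (h : H3 C Γ d) (w : Fin 3 → V n) (hw : WI C Γ I01 d w) (φ : V n →ₗ[ℝ] ℝ)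
    (hφ : Ph C w 0 φ) (δ : ℕ)
    (hZ : ∀ ε M : ℝ, 0 < ε → 1 < M → ∃ (T : ℕ) (r : ℝ), 0 < r ∧
      ∀ x, Lf C w x → φ x = 1 → ‖x - w 0‖ < r → Zp C w δ ε M T x) :
    ∃ W : Fin 3 → V n, AD C Γ d δ W := by
  have hHI : HI C Γ 3 I01 d := h.toHI
  have hHK : HK C Γ 3 := hHI.toHK
  have hcc : CC C Γ := hHK.toCC
  have hP : PCone C := hcc.toPCone
  have hWIat : ∀ t, WI C Γ I01 d (at1 w t) := by
    intro t
    rw [at1_eq]
    exact ((hWii n C Γ 3 I01 d hHI w hw).1 (rr t) (rr_pos t)).1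
  have hφat : ∀ t, Ph C (at1 w t) 0 φ := by
    intro t
    refine ⟨hφ.pos, ?_, ?_⟩
    · rw [at1_zero]; exact hφ.one
    · intro j hj
      rw [at1_eq]
      simp only
      rw [map_smul, hφ.zero j hj, smul_zero]
  obtain ⟨θ, g, s, p, hθ, hg, hs, hp, hlim⟩ := (hFay n C Γ 3 hcc (by norm_num)).cpt
    (fun m => at1 w (-(m : ℝ))) (fun m => (hWIat _).pes)
  have hV0 : ∀ m, WI C Γ I01 d (fun i => s m • act (g m) (at1 w (-(θ m : ℝ)) i)) := fun m =>
    ((hWii n C Γ 3 I01 d hHI _ (hWIat (-(θ m : ℝ)))).2.1 (g m) (hg m) (s m) (hs m)).1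
  have hsum0 : ∀ m, ∑ i, s m • act (g m) (at1 w (-(θ m : ℝ)) i)
      = s m • act (g m) (∑ i, at1 w (-(θ m : ℝ)) i) := by
    intro m
    rw [CC.act_sum, Finset.smul_sum]
  obtain ⟨ψ, W, hψ, hVW, hWp, hWI⟩ := H37.lpsF n C Γ hcc (Fin 3) (by simp)
    (fun m i => s m • act (g m) (at1 w (-(θ m : ℝ)) i)) p (fun m => (hV0 m).pes) hp
    (by simpa only [hsum0] using hlim)
  have hWIV : ∀ m, WI C Γ I01 d
      (fun i => s (ψ m) • act (g (ψ m)) (at1 w (-(θ (ψ m) : ℝ)) i)) := fun m => hV0 (ψ m)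
  have hWC : ∑ i, W i ∈ C := by rw [hWp]; exact hp
  have hWW : WI C Γ I01 d W := (hWic n C Γ 3 I01 d hHI _ W hWIV hVW hWC).1
  refine ⟨W, ⟨hWW, fun y hy => ?_⟩⟩
  obtain ⟨z, hz, hzL⟩ := hLfc n C Γ d h _ W hWIV hWW hVW y hy
  obtain ⟨φ', hφ'⟩ := hPhe n C Γ 3 hHK W hWW.pes 0
  choose Φ hΦ using fun m => hPhe n C Γ 3 hHK _ (hWIV m).pes 0
  let z' : ℕ → V n := fun m => (s (ψ m))⁻¹ • act (g (ψ m))⁻¹ (z m)
  have hz' : ∀ m, s (ψ m) • act (g (ψ m)) (z' m) = z m := by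
    intro m
    change s (ψ m) • act (g (ψ m)) ((s (ψ m))⁻¹ • act (g (ψ m))⁻¹ (z m)) = z m
    rw [CC.act_smul, CC.act_act_inv, smul_smul, mul_inv_cancel₀ (hs _).ne', one_smul]
  have hzphi : ∀ m, Φ m (z m) = φ (z' m) := by
    intro m
    have h1 := (hPhu n C Γ 3 hHK _ (hWIat (-(θ (ψ m) : ℝ))).pes 0 φ (hφat _)).2.2.2.1
      (g (ψ m)) (hg _) (s (ψ m)) (hs _) (Φ m) (hΦ m) (z' m)
    rwa [hz'] at h1
  have hlimφ : Tendsto (fun m => φ (z' m)) atTop (𝓝 (φ' y)) := by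
    have h1 := hPhc n C Γ 3 hHK _ W (fun m => (hWIV m).pes) hWW.pes hVW 0 Φ φ' z y hΦ hφ' hz
    simpa only [hzphi] using h1
  obtain ⟨a1, -, -, -, -, -, a7⟩ := (hLfm n C Γ d h W hWW).2 y hy
  have hc : 0 < φ' y := (a7 φ' hφ').1
  have hsum : y + W 1 + W 2 ∈ C := by
    have h1 := a1.pes.1.sum_mem
    rw [Fin.sum_univ_three] at h1
    have e0 : up W y 0 = y := Function.update_self _ _ _
    have e1 : up W y 1 = W 1 := Function.update_of_ne (by decide) _ _
    have e2 : up W y 2 = W 2 := Function.update_of_ne (by decide) _ _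
    rwa [e0, e1, e2] at h1
  obtain ⟨M0, hM0, hM0C⟩ := hP.absorb hWC y
  have ht0 : Tendsto (fun m => M0 • (∑ i, s (ψ m) • act (g (ψ m)) (at1 w (-(θ (ψ m) : ℝ)) i))
      - z m) atTop (𝓝 (M0 • ∑ i, W i - y)) :=
    ((tendsto_finsetSum _ fun i _ => hVW i).const_smul M0).sub hz
  have hev := (ht0.eventually (hP.isOpen.mem_nhds hM0C)).and
    (hzL.and (hlimφ.eventually (lt_mem_nhds (show φ' y / 2 < φ' y by linarith))))
  obtain ⟨m0, hm0⟩ := eventually_atTop.1 hev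
  have hA : ∀ m, M0 • (∑ i, at1 w (-(θ (ψ (m + m0)) : ℝ)) i) - z' (m + m0) ∈ C := by
    intro m
    have h1 := (hm0 (m + m0) (Nat.le_add_left _ _)).1
    rw [← hcc.sact_mem_iff (hg (ψ (m + m0))) (hs (ψ (m + m0)))]
    rwa [CC.act_sub, smul_sub, hz', CC.act_smul, smul_comm, ← hsum0]
  have hL : ∀ m, Lf C w (z' (m + m0)) := by
    intro m
    have h1 := (hm0 (m + m0) (Nat.le_add_left _ _)).2.1
    have h2 := (hLfi n C Γ d h _ (hWIat (-(θ (ψ (m + m0)) : ℝ))) (z' (m + m0))).2.1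
      (g (ψ (m + m0))) (hg _) (s (ψ (m + m0))) (hs _)
    rw [hz'] at h2
    have h3 := h2.1 h1
    rw [at1_eq] at h3
    exact ((hLfi n C Γ d h w hw (z' (m + m0))).1 _ (rr_pos _)).1 h3
  have hcm : ∀ m, φ' y / 2 < φ (z' (m + m0)) := fun m =>
    (hm0 (m + m0) (Nat.le_add_left _ _)).2.2
  have hcpos : ∀ m, 0 < φ (z' (m + m0)) := fun m => lt_trans (by linarith) (hcm m)
  let zh : ℕ → V n := fun m => (φ (z' (m + m0)))⁻¹ • z' (m + m0)
  have hzh : ∀ m, Lf C w (zh m) := fun m =>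
    ((hLfi n C Γ d h w hw (z' (m + m0))).2.2 _ (inv_pos.mpr (hcpos m))).2 (hL m)
  have hφzh : ∀ m, φ (zh m) = 1 := by
    intro m
    change φ ((φ (z' (m + m0)))⁻¹ • z' (m + m0)) = 1
    rw [map_smul, smul_eq_mul, inv_mul_cancel₀ (hcpos m).ne']
  have hsh : Tendsto (fun m : ℕ => m + m0) atTop atTop := tendsto_add_atTop_nat m0
  have hθt : Tendsto (fun m => ((θ (ψ (m + m0)) : ℕ) : ℝ)) atTop atTop :=
    tendsto_natCast_atTop_atTop.comp (((hθ.comp hψ).tendsto_atTop).comp hsh)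
  have hwcl : ∀ i, w i ∈ closure C := fun i => hw.pes.1.cl i
  have hlpt : Tendsto zh atTop (𝓝 (w 0)) := by
    refine hLpt n C Γ d h w hw φ hφ (fun m => ((θ (ψ (m + m0)) : ℕ) : ℝ)) zh 1
      (2 * M0 / φ' y) hθt hzh ?_ rfl ?_
    · simp only [hφzh]; exact tendsto_const_nhds
    · intro m
      have h1 := hA m
      rw [Fin.sum_univ_three, at1_zero, at1_one, at1_two] at h1
      have hS : w 0 + Real.exp (-((θ (ψ (m + m0)) : ℕ) : ℝ)) • w 1 + w 2 ∈ closure C :=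
        hP.cl_add (hP.cl_add (hwcl 0) (hP.cl_smul (hwcl 1) (Real.exp_pos _).le)) (hwcl 2)
      have h2 : (2 * M0 / φ' y) • (w 0 + Real.exp (-((θ (ψ (m + m0)) : ℕ) : ℝ)) • w 1 + w 2)
            - zh m
          = (φ (z' (m + m0)))⁻¹ • (M0 • (w 0 + Real.exp (-((θ (ψ (m + m0)) : ℕ) : ℝ)) • w 1
              + w 2) - z' (m + m0))
            + (2 * M0 / φ' y - (φ (z' (m + m0)))⁻¹ * M0) •
              (w 0 + Real.exp (-((θ (ψ (m + m0)) : ℕ) : ℝ)) • w 1 + w 2) := by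
        change _ - (φ (z' (m + m0)))⁻¹ • z' (m + m0) = _
        module
      rw [h2]
      refine hP.cl_add (hP.cl_smul (subset_closure h1) (inv_pos.mpr (hcpos m)).le)
        (hP.cl_smul hS ?_)
      have h3 : (φ (z' (m + m0)))⁻¹ ≤ 2 / φ' y := by
        rw [inv_le_comm₀ (hcpos m) (by positivity), inv_div]
        exact (hcm m).le
      have h4 := mul_le_mul_of_nonneg_right h3 hM0.le
      have h5 : 2 / φ' y * M0 = 2 * M0 / φ' y := by ring
      linarith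
  refine core2 hcc w W (hwcl 1) (hwcl 2) δ (fun m => ((θ (ψ (m + m0)) : ℕ) : ℝ))
    (fun m => g (ψ (m + m0))) (fun m => s (ψ (m + m0))) (fun m => hg _) (fun m => hs _) zh
    (fun m => (hzh m).cl) (fun m => φ (z' (m + m0))) (φ' y) hc (hlimφ.comp hsh) y ?_ ?_ ?_
    hsum ?_
  · have h1 : (fun m => GG (g (ψ (m + m0))) (s (ψ (m + m0))) (φ (z' (m + m0)) • zh m))
        = fun m => z (m + m0) := by
      funext m
      change GG (g (ψ (m + m0))) (s (ψ (m + m0)))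
        (φ (z' (m + m0)) • (φ (z' (m + m0)))⁻¹ • z' (m + m0)) = z (m + m0)
      rw [smul_smul, mul_inv_cancel₀ (hcpos m).ne', one_smul, GG_apply, hz']
    rw [h1]
    exact hz.comp hsh
  · have h1 := (hVW 1).comp hsh
    have h2 : (fun m => GG (g (ψ (m + m0))) (s (ψ (m + m0)))
        (Real.exp (-((θ (ψ (m + m0)) : ℕ) : ℝ)) • w 1))
        = (fun m => s (ψ m) • act (g (ψ m)) (at1 w (-(θ (ψ m) : ℝ)) 1)) ∘ fun m => m + m0 := by
      funext m
      rw [Function.comp_apply, at1_one, GG_apply]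
    rw [h2]; exact h1
  · have h1 := (hVW 2).comp hsh
    have h2 : (fun m => GG (g (ψ (m + m0))) (s (ψ (m + m0))) (w 2))
        = (fun m => s (ψ m) • act (g (ψ m)) (at1 w (-(θ (ψ m) : ℝ)) 2)) ∘ fun m => m + m0 := by
      funext m
      rw [Function.comp_apply, at1_two, GG_apply]
    rw [h2]; exact h1
  · intro j
    obtain ⟨T, r, hr, hZ'⟩ := hZ (1 / ((j : ℝ) + 1)) ((j : ℝ) + 2) (by positivity)
      (by have : (0 : ℝ) ≤ (j : ℝ) := Nat.cast_nonneg j
          linarith)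
    have h1 : ∀ᶠ m in atTop, ‖zh m - w 0‖ < r := by
      have h2 := (tendsto_iff_norm_sub_tendsto_zero.1 hlpt)
      exact h2.eventually (gt_mem_nhds hr)
    filter_upwards [h1, hθt.eventually_ge_atTop ((T : ℝ) + 1)] with m hm1 hm2
    exact ⟨T, hZ' (zh m) (hzh m) (hφzh m) hm1, hm2⟩

/-- **Row ZPL** -/
theorem zpl (hFay : FayStmt) (hWic : WicStmt) (hWii : WiiStmt) (hLfi : LfiStmt)
    (hLfm : LfmStmt) (hLfc : LfcStmt) (hPhe : PheStmt) (hPhu : PhuStmt) (hPhc : PhcStmt)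
    (_hZpm : ZpmStmt) (hLpt : LptStmt) : ZplStmt := by
  intro n C Γ d h w hw φ hφ δ x0 hx0 hφx0 hZ
  obtain ⟨a1, -, a3, -, -, -, a7⟩ := (hLfm n C Γ d h w hw).2 x0 hx0
  have hφ' : Ph C (up w x0) 0 φ := by
    have h1 := (a7 φ hφ).2
    rwa [hφx0, inv_one, one_smul] at h1
  refine core1 hFay hWic hWii hLfi hLfm hLfc hPhe hPhu hPhc hLpt n C Γ d h (up w x0) a1 φ hφ' δ ?_
  intro ε M hε hM
  obtain ⟨T, r, hr, h1⟩ := hZ ε M hε hM
  refine ⟨T, r, hr, fun x hx hφx hxr => ?_⟩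
  have e0 : up w x0 0 = x0 := Function.update_self _ _ _
  have e1 : up w x0 1 = w 1 := Function.update_of_ne (by decide) _ _
  have e2 : up w x0 2 = w 2 := Function.update_of_ne (by decide) _ _
  rw [e0] at hxr
  have h2 := h1 x ((a3 x).1 hx) hφx hxr
  unfold Zp at h2 ⊢
  rw [e1, e2]
  exact h2

end Pool.Agent.KT3.H23
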